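import Pool.Agent.H.MP_13e997_an.C

open MeasureTheory Filter Topology Set
open scoped ContDiff

namespace Pool.Agent.Results.MP_13e997_an.Counter

def Oper (a b c : ℝ → ℝ) : Prop :=
  ContDiff ℝ ∞ a ∧ ContDiff ℝ ∞ b ∧ ContDiff ℝ ∞ c ∧ (∀ x, 0 < a x) ∧
    ∃ h : ℝ → ℝ, ContDiff ℝ 2 h ∧ (∀ x, 0 < h x) ∧ ∀ x, -a x * deriv (deriv h) x + b x * deriv h x + c x * h x = 0

noncomputable def heat (a b c : ℝ → ℝ) (v : ℝ → ℝ → ℝ) (x t : ℝ) : ℝ :=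
  deriv (v x) t - a x * deriv (deriv (v · t)) x + b x * deriv (v · t) x + c x * v x t

def Reg (v : ℝ → ℝ → ℝ) : Prop :=
  ∀ t, 0 < t → Differentiable ℝ (v · t) ∧ Differentiable ℝ (deriv (v · t)) ∧ ∀ x, DifferentiableAt ℝ (v x) t

def Super (a b c : ℝ → ℝ) (v : ℝ → ℝ → ℝ) : Prop :=
  ContinuousOn (Function.uncurry v) (univ ×ˢ Ici 0) ∧ Reg v ∧ (∀ x t, 0 ≤ t → 0 ≤ v x t) ∧ ∀ x t, 0 < t → 0 ≤ heat a b c v x t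

def Sol (a b c : ℝ → ℝ) (v : ℝ → ℝ → ℝ) : Prop :=
  Reg v ∧ ContinuousOn (fun p : ℝ × ℝ => deriv (v p.1) p.2) (univ ×ˢ Ioi 0) ∧ ∀ x t, 0 < t → heat a b c v x t = 0

noncomputable def evol (k : ℝ → ℝ → ℝ → ℝ) (f : ℝ → ℝ) (x t : ℝ) : ℝ := if t = 0 then f x else ∫ y, k x y t * f y

def HK (a b c : ℝ → ℝ) (k : ℝ → ℝ → ℝ → ℝ) : Prop :=
  (∀ x y t, 0 < t → 0 < k x y t) ∧ ContinuousOn (fun p : ℝ × ℝ × ℝ => k p.1 p.2.1 p.2.2) {p | 0 < p.2.2} ∧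
    (∀ y, Sol a b c fun x t => k x y t) ∧ ∀ f : ℝ → ℝ, Continuous f → HasCompactSupport f → (∀ x, 0 ≤ f x) →
      ContinuousOn (Function.uncurry (evol k f)) (univ ×ˢ Ici 0) ∧ Sol a b c (evol k f) ∧
        ∀ v, Super a b c v → (∀ x, f x ≤ v x 0) → ∀ x t, 0 < t → evol k f x t ≤ v x t

def Subcrit (k : ℝ → ℝ → ℝ → ℝ) : Prop := ∀ x y, x ≠ y → ∫⁻ t in Ioi 0, ENNReal.ofReal (k x y t) < ⊤

open Pool.Agent.H.MP_13e997_an (psi mm mm_s mm_ge crit subc main) in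
theorem result : ∃ a₀ b₀ c₀ a₁ b₁ c₁ : ℝ → ℝ, Oper a₀ b₀ c₀ ∧ Oper a₁ b₁ c₁ ∧ ∃ K : Set (ℝ × ℝ), IsCompact K ∧
    ∀ k₀ k₁, HK a₀ b₀ c₀ k₀ → HK a₁ b₁ c₁ k₁ → ¬ Subcrit k₀ ∧ Subcrit k₁ ∧
      (∃ᶠ t in atTop, ∃ p ∈ K, 1 < k₁ p.1 p.2 t / k₀ p.1 p.2 t) ∧
      ¬ TendstoUniformlyOn (fun t p => k₁ p.1 p.2 t / k₀ p.1 p.2 t) 0 atTop K := by
  obtain ⟨K, hK, hP⟩ := psi
  refine ⟨fun x => 1 / mm K x, 0, 0, fun x => Real.exp (-2 * x), fun x => Real.exp (-2 * x), 0,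
    ⟨contDiff_const.div mm_s fun x => (one_pos.trans_le (mm_ge hK x)).ne', contDiff_const, contDiff_const,
      fun x => one_div_pos.2 (one_pos.trans_le (mm_ge hK x)), fun _ => 1, contDiff_const, fun _ => one_pos, by simp⟩,
    ⟨by fun_prop, by fun_prop, contDiff_const, fun x => Real.exp_pos _, fun _ => 1, contDiff_const, fun _ => one_pos, by simp⟩,
    Icc (-2) 2 ×ˢ Icc (-2) 2, isCompact_Icc.prod isCompact_Icc, fun k₀ k₁ h₀ h₁ => ⟨crit hK hP h₀, subc h₁, ?_⟩⟩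
  have h : ∃ᶠ t in atTop, ∃ p ∈ Icc (-2 : ℝ) 2 ×ˢ Icc (-2 : ℝ) 2, 1 < k₁ p.1 p.2 t / k₀ p.1 p.2 t :=
    ((main hK hP h₁ h₀).and_eventually (eventually_gt_atTop 0)).mono fun t ⟨⟨x, hx, y, hy, e⟩, t0⟩ =>
      ⟨(x, y), ⟨hx, hy⟩, (one_lt_div (h₀.1 x y t t0)).2 e⟩
  refine ⟨h, fun u => ?_⟩
  obtain ⟨t, ⟨p, p1, p2⟩, q⟩ := (h.and_eventually (Metric.tendstoUniformlyOn_iff.1 u 1 one_pos)).exists
  have := q p p1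
  rw [Pi.zero_apply, dist_zero_left, Real.norm_eq_abs] at this
  linarith [le_abs_self (k₁ p.1 p.2 t / k₀ p.1 p.2 t)]

end Pool.Agent.Results.MP_13e997_an.Counter
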